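import Mathlib

/-! # Representations as sums of `h` elements: hitting sets, counting, packing -/

namespace Pool.Agent.Q83.RB

open scoped Classical

/-- The multisets of `h` elements of `A` with sum `n`. -/
def msets (A : Set ℕ) (h n : ℕ) : Set (Multiset ℕ) :=
  {s | Multiset.card s = h ∧ (∀ a ∈ s, a ∈ A) ∧ s.sum = n}

theorem exists_tuple {F : Finset ℕ} : ∀ (k : ℕ) (s : Multiset ℕ), Multiset.card s = k →
    (∀ a ∈ s, a ∈ F) → ∃ f : Fin k → ℕ, (∀ i, f i ∈ F) ∧ s = Multiset.ofList (List.ofFn f) := by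
  intro k s hs hF
  induction s using Quotient.inductionOn with
  | _ l =>
    have hl : l.length = k := by simpa using hs
    subst hl
    refine ⟨l.get, fun i => hF _ (by simp), ?_⟩
    simp [List.ofFn_get]

theorem le_of_mem_msets {A : Set ℕ} {h n : ℕ} {s : Multiset ℕ} (hs : s ∈ msets A h n) {a : ℕ}
    (ha : a ∈ s) : a ≤ n := by
  have h1 := Multiset.le_sum_of_mem ha
  rw [hs.2.2] at h1
  exact h1

theorem msets_finite (A : Set ℕ) (h n : ℕ) : (msets A h n).Finite := by
  have hsub : msets A h n ⊆ (fun f : Fin h → ℕ => Multiset.ofList (List.ofFn f)) ''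
      {f : Fin h → ℕ | ∀ i, f i ∈ Finset.range (n + 1)} := by
    intro s hs
    obtain ⟨f, h1, h2⟩ := exists_tuple (F := Finset.range (n + 1)) h s hs.1
      (fun a ha => Finset.mem_range.mpr (Nat.lt_succ_of_le (le_of_mem_msets hs ha)))
    exact ⟨f, h1, h2.symm⟩
  refine Set.Finite.subset (Set.Finite.image _ ?_) hsub
  have : {f : Fin h → ℕ | ∀ i, f i ∈ Finset.range (n + 1)} =
      (Fintype.piFinset (fun _ : Fin h => Finset.range (n + 1)) : Set (Fin h → ℕ)) := by
    ext f
    simp
  rw [this]
  exact Finset.finite_toSet _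

/-- a chosen element of a multiset -/
noncomputable def ch (s : Multiset ℕ) : ℕ := if h : ∃ a, a ∈ s then h.choose else 0

theorem ch_mem {s : Multiset ℕ} (hs : 0 < Multiset.card s) : ch s ∈ s := by
  have h : ∃ a, a ∈ s := Multiset.card_pos_iff_exists_mem.mp hs
  rw [ch, dif_pos h]
  exact h.choose_spec

/-- A set of elements of `A` which meets all the representations of `n`. -/
noncomputable def hit (A : Set ℕ) (h n : ℕ) : Finset ℕ := (msets_finite A h n).toFinset.image ch

theorem card_hit_le (A : Set ℕ) (h n : ℕ) : (hit A h n).card ≤ (msets A h n).ncard := by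
  rw [Set.ncard_eq_toFinset_card _ (msets_finite A h n)]
  exact Finset.card_image_le

theorem mem_hit {A : Set ℕ} {h n b : ℕ} (hh : 1 ≤ h) (hb : b ∈ hit A h n) :
    b ∈ A ∧ b ≤ n ∧ ∃ s : Multiset ℕ, Multiset.card s = h - 1 ∧ (∀ a ∈ s, a ∈ A ∧ a ≤ n) ∧
      b + s.sum = n := by
  obtain ⟨s, hs, rfl⟩ := Finset.mem_image.mp hb
  rw [Set.Finite.mem_toFinset] at hs
  have hm : ch s ∈ s := ch_mem (by rw [hs.1]; omega)
  refine ⟨hs.2.1 _ hm, le_of_mem_msets hs hm, s.erase (ch s), ?_, ?_, ?_⟩
  · rw [Multiset.card_erase_of_mem hm, hs.1]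
    rfl
  · intro a ha
    have := Multiset.mem_of_mem_erase ha
    exact ⟨hs.2.1 a this, le_of_mem_msets hs this⟩
  · rw [← hs.2.2, ← Multiset.sum_cons, Multiset.cons_erase hm]

/-- If all the elements of `hit A h n` are removed then `n` is not represented. -/
theorem msets_diff_eq_empty {A : Set ℕ} {h n : ℕ} (hh : 1 ≤ h) {D : Set ℕ}
    (hD : ∀ b ∈ hit A h n, b ∈ D) : msets (A \ D) h n = ∅ := by
  rw [Set.eq_empty_iff_forall_notMem]
  intro s hs
  have hs' : s ∈ msets A h n := ⟨hs.1, fun a ha => (hs.2.1 a ha).1, hs.2.2⟩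
  have hm : ch s ∈ s := ch_mem (by rw [hs.1]; omega)
  have h1 : ch s ∈ hit A h n := by
    rw [hit, Finset.mem_image]
    exact ⟨s, by rw [Set.Finite.mem_toFinset]; exact hs', rfl⟩
  exact (hs.2.1 _ hm).2 (hD _ h1)

/-- The elements of `A` up to `M`. -/
noncomputable def upto (A : Set ℕ) (M : ℕ) : Finset ℕ := (Finset.range (M + 1)).filter (fun a => a ∈ A)

theorem mem_upto {A : Set ℕ} {M a : ℕ} : a ∈ upto A M ↔ a ∈ A ∧ a ≤ M := by
  rw [upto, Finset.mem_filter, Finset.mem_range]
  constructor
  · rintro ⟨h1, h2⟩; exact ⟨h2, by omega⟩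
  · rintro ⟨h1, h2⟩; exact ⟨by omega, h1⟩

/-- Few `n ≤ M` have a given element in their hitting set. -/
theorem card_mem_hit_le (A : Set ℕ) {h : ℕ} (hh : 1 ≤ h) (M b : ℕ) (X : Finset ℕ)
    (hX : ∀ n ∈ X, n ≤ M) :
    (X.filter (fun n => b ∈ hit A h n)).card ≤ (upto A M).card ^ (h - 1) := by
  have hsub : X.filter (fun n => b ∈ hit A h n) ⊆
      (Fintype.piFinset (fun _ : Fin (h - 1) => upto A M)).image
        (fun f => b + (Multiset.ofList (List.ofFn f)).sum) := by
    intro n hn
    rw [Finset.mem_filter] at hn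
    obtain ⟨h1, h2, s, h3, h4, h5⟩ := mem_hit hh hn.2
    obtain ⟨f, h6, h7⟩ := exists_tuple (F := upto A M) (h - 1) s h3
      (fun a ha => mem_upto.mpr ⟨(h4 a ha).1, (h4 a ha).2.trans (hX n hn.1)⟩)
    rw [Finset.mem_image]
    exact ⟨f, by rw [Fintype.mem_piFinset]; exact h6, by rw [← h7]; exact h5⟩
  refine le_trans (Finset.card_le_card hsub) (le_trans Finset.card_image_le ?_)
  rw [Fintype.card_piFinset]
  simp

/-- A set with few representations is thin. -/
theorem choose_upto_le (A : Set ℕ) {h M R : ℕ}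
    (hR : ∀ n ≤ h * M, (msets A h n).ncard ≤ R) :
    (upto A M).card.choose h ≤ (h * M + 1) * R := by
  rw [← Finset.card_powersetCard]
  have hsub : (Finset.powersetCard h (upto A M)).image (fun t => t.val) ⊆
      (Finset.range (h * M + 1)).biUnion (fun n => (msets_finite A h n).toFinset) := by
    intro s hs
    obtain ⟨t, ht, rfl⟩ := Finset.mem_image.mp hs
    rw [Finset.mem_powersetCard] at ht
    have h1 : t.val.sum ≤ h * M := by
      have : ∑ a ∈ t, a ≤ t.card • M := Finset.sum_le_card_nsmul _ _ _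
        (fun a ha => (mem_upto.mp (ht.1 ha)).2)
      rw [ht.2, smul_eq_mul] at this
      calc t.val.sum = ∑ a ∈ t, a := by rw [Finset.sum_val]; rfl
        _ ≤ h * M := this
    rw [Finset.mem_biUnion]
    refine ⟨t.val.sum, Finset.mem_range.mpr (by omega), ?_⟩
    rw [Set.Finite.mem_toFinset]
    exact ⟨ht.2, fun a ha => (mem_upto.mp (ht.1 ha)).1, rfl⟩
  have h2 : ((Finset.powersetCard h (upto A M)).image (fun t => t.val)).card =
      (Finset.powersetCard h (upto A M)).card :=
    Finset.card_image_of_injective _ Finset.val_injective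
  rw [← h2]
  refine le_trans (Finset.card_le_card hsub) (le_trans Finset.card_biUnion_le ?_)
  calc ∑ n ∈ Finset.range (h * M + 1), (msets_finite A h n).toFinset.card
      ≤ ∑ _n ∈ Finset.range (h * M + 1), R := by
        apply Finset.sum_le_sum
        intro n hn
        rw [← Set.ncard_eq_toFinset_card _ (msets_finite A h n)]
        exact hR n (by rw [Finset.mem_range] at hn; omega)
    _ = (h * M + 1) * R := by simp

/-- Packing: many `n` with pairwise disjoint finite sets `B n`, if no element is in many of them. -/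
theorem exists_packing (X : Finset ℕ) (B : ℕ → Finset ℕ) {R d : ℕ}
    (hR : ∀ n ∈ X, (B n).card ≤ R) (hd : ∀ b, (X.filter (fun n => b ∈ B n)).card ≤ d) :
    ∃ S ⊆ X, (∀ i ∈ S, ∀ j ∈ S, i ≠ j → Disjoint (B i) (B j)) ∧ X.card ≤ S.card * (R * d + 1) := by
  let P : Finset (Finset ℕ) := X.powerset.filter
    (fun S => ∀ i ∈ S, ∀ j ∈ S, i ≠ j → Disjoint (B i) (B j))
  have hP : P.Nonempty := ⟨∅, by simp [P]⟩
  obtain ⟨S, hS, hmax⟩ := Finset.exists_max_image P Finset.card hP
  have hS1 : S ⊆ X := Finset.mem_powerset.mp (Finset.mem_filter.mp hS).1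
  have hS2 := (Finset.mem_filter.mp hS).2
  refine ⟨S, hS1, hS2, ?_⟩
  have hcov : X ⊆ S ∪ S.biUnion (fun i => (B i).biUnion (fun b => X.filter (fun n => b ∈ B n))) := by
    intro n hn
    rw [Finset.mem_union]
    by_cases h1 : n ∈ S
    · exact Or.inl h1
    · right
      by_contra hcon
      have h2 : ∀ i ∈ S, Disjoint (B i) (B n) := by
        intro i hi
        rw [Finset.disjoint_left]
        intro b hb hb'
        apply hcon
        rw [Finset.mem_biUnion]
        refine ⟨i, hi, ?_⟩
        rw [Finset.mem_biUnion]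
        exact ⟨b, hb, Finset.mem_filter.mpr ⟨hn, hb'⟩⟩
      have h3 : insert n S ∈ P := by
        rw [Finset.mem_filter, Finset.mem_powerset]
        refine ⟨Finset.insert_subset hn hS1, ?_⟩
        intro i hi j hj hij
        rw [Finset.mem_insert] at hi hj
        rcases hi with rfl | hi <;> rcases hj with rfl | hj
        · exact absurd rfl hij
        · exact (h2 j hj).symm
        · exact h2 i hi
        · exact hS2 i hi j hj hij
      have h4 := hmax _ h3
      rw [Finset.card_insert_of_notMem h1] at h4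
      omega
  have h5 := (Finset.card_le_card hcov).trans (Finset.card_union_le _ _)
  have h6 : (S.biUnion (fun i => (B i).biUnion (fun b => X.filter (fun n => b ∈ B n)))).card ≤
      S.card * (R * d) := by
    refine le_trans Finset.card_biUnion_le ?_
    calc ∑ i ∈ S, ((B i).biUnion (fun b => X.filter (fun n => b ∈ B n))).card
        ≤ ∑ _i ∈ S, R * d := by
          apply Finset.sum_le_sum
          intro i hi
          refine le_trans Finset.card_biUnion_le ?_
          calc ∑ b ∈ B i, (X.filter (fun n => b ∈ B n)).card ≤ ∑ _b ∈ B i, d :=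
                Finset.sum_le_sum fun b _ => hd b
            _ = (B i).card * d := by simp
            _ ≤ R * d := Nat.mul_le_mul_right _ (hR i (hS1 hi))
      _ = S.card * (R * d) := by simp
  calc X.card ≤ _ := h5
    _ ≤ S.card + S.card * (R * d) := Nat.add_le_add_left h6 _
    _ = S.card * (R * d + 1) := by ring

end Pool.Agent.Q83.RB
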