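import Pool.Agent.Q83.RB.A

/-! # Independent events and disjoint finite sets -/

namespace Pool.Agent.Q83.RB

open MeasureTheory ProbabilityTheory Filter Topology
open scoped Classical

set_option linter.unusedSectionVars false

variable {Ω : Type*} [MeasurableSpace Ω] {μ : Measure Ω} [IsProbabilityMeasure μ] {D : ℕ → Set Ω}

/-- product formula for the events of an independent family -/
def ProdF (μ : Measure Ω) (D : ℕ → Set Ω) : Prop :=
  ∀ T : Finset ℕ, μ.real {ω | ∀ b ∈ T, ω ∈ D b} = ∏ b ∈ T, μ.real (D b)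

theorem prodF_of_indep (hD : ∀ a, MeasurableSet (D a)) (h : iIndepSet D μ) : ProdF μ D := by
  intro T
  have h1 := (iIndepSet_iff_meas_biInter hD).mp h T
  have h2 : {ω | ∀ b ∈ T, ω ∈ D b} = ⋂ b ∈ T, D b := by
    ext ω; simp
  rw [h2, measureReal_def, h1, ENNReal.toReal_prod]
  rfl

theorem measurable_all (hD : ∀ a, MeasurableSet (D a)) (T : Finset ℕ) :
    MeasurableSet {ω | ∀ b ∈ T, ω ∈ D b} := by
  have h2 : {ω | ∀ b ∈ T, ω ∈ D b} = ⋂ b ∈ T, D b := by
    ext ω; simp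
  rw [h2]
  exact Finset.measurableSet_biInter _ fun b _ => hD b

theorem measurable_none {J : Type*} (hD : ∀ a, MeasurableSet (D a)) (B : J → Finset ℕ)
    (S : Finset J) : MeasurableSet {ω | ∀ j ∈ S, ∃ b ∈ B j, ω ∉ D b} := by
  have h2 : {ω | ∀ j ∈ S, ∃ b ∈ B j, ω ∉ D b} = ⋂ j ∈ S, {ω | ∀ b ∈ B j, ω ∈ D b}ᶜ := by
    ext ω; simp
  rw [h2]
  exact Finset.measurableSet_biInter _ fun b _ => (measurable_all hD _).compl

theorem prod_formula {J : Type*} (hD : ∀ a, MeasurableSet (D a)) (hI : ProdF μ D)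
    (B : J → Finset ℕ) : ∀ (S : Finset J),
    (∀ i ∈ S, ∀ j ∈ S, i ≠ j → Disjoint (B i) (B j)) → ∀ T : Finset ℕ,
    (∀ j ∈ S, Disjoint (B j) T) →
    μ.real {ω | (∀ j ∈ S, ∃ b ∈ B j, ω ∉ D b) ∧ ∀ b ∈ T, ω ∈ D b} =
      (∏ j ∈ S, (1 - ∏ b ∈ B j, μ.real (D b))) * ∏ b ∈ T, μ.real (D b) := by
  intro S
  induction S using Finset.induction_on with
  | empty =>
    intro _ T _
    simp only [Finset.notMem_empty, false_imp_iff, implies_true, true_and, Finset.prod_empty,
      one_mul]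
    exact hI T
  | insert m S hm ih =>
    intro hdis T hT
    have hdis' : ∀ i ∈ S, ∀ j ∈ S, i ≠ j → Disjoint (B i) (B j) := fun i hi j hj hij =>
      hdis i (Finset.mem_insert_of_mem hi) j (Finset.mem_insert_of_mem hj) hij
    have hmS : ∀ j ∈ S, Disjoint (B j) (B m) := fun j hj =>
      hdis j (Finset.mem_insert_of_mem hj) m (Finset.mem_insert_self _ _)
        (fun h => hm (h ▸ hj))
    have h1 := ih hdis' T (fun j hj => hT j (Finset.mem_insert_of_mem hj))
    have h2 := ih hdis' (T ∪ B m) (fun j hj => by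
      rw [Finset.disjoint_union_right]
      exact ⟨hT j (Finset.mem_insert_of_mem hj), hmS j hj⟩)
    have hset : {ω | (∀ j ∈ insert m S, ∃ b ∈ B j, ω ∉ D b) ∧ ∀ b ∈ T, ω ∈ D b} =
        {ω | (∀ j ∈ S, ∃ b ∈ B j, ω ∉ D b) ∧ ∀ b ∈ T, ω ∈ D b} \
        {ω | (∀ j ∈ S, ∃ b ∈ B j, ω ∉ D b) ∧ ∀ b ∈ T ∪ B m, ω ∈ D b} := by
      ext ω
      simp only [Set.mem_ofPred_eq, Set.mem_sdiff, Finset.mem_insert, Finset.mem_union]
      constructor
      · rintro ⟨h3, h4⟩
        refine ⟨⟨fun j hj => h3 j (Or.inr hj), h4⟩, ?_⟩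
        rintro ⟨_, h5⟩
        obtain ⟨b, hb, hb'⟩ := h3 m (Or.inl rfl)
        exact hb' (h5 b (Or.inr hb))
      · rintro ⟨⟨h3, h4⟩, h5⟩
        refine ⟨?_, h4⟩
        intro j hj
        rcases hj with rfl | hj
        · by_contra hcon
          push Not at hcon
          apply h5
          refine ⟨h3, ?_⟩
          rintro b (hb | hb)
          · exact h4 b hb
          · exact hcon b hb
        · exact h3 j hj
    have hmeas : MeasurableSet
        {ω | (∀ j ∈ S, ∃ b ∈ B j, ω ∉ D b) ∧ ∀ b ∈ T ∪ B m, ω ∈ D b} :=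
      (measurable_none hD B S).inter (measurable_all hD _)
    have hsub : {ω | (∀ j ∈ S, ∃ b ∈ B j, ω ∉ D b) ∧ ∀ b ∈ T ∪ B m, ω ∈ D b} ⊆
        {ω | (∀ j ∈ S, ∃ b ∈ B j, ω ∉ D b) ∧ ∀ b ∈ T, ω ∈ D b} := by
      rintro ω ⟨h3, h4⟩
      exact ⟨h3, fun b hb => h4 b (Finset.mem_union_left _ hb)⟩
    rw [hset, measureReal_sdiff hsub hmeas, h1, h2, Finset.prod_insert hm,
      Finset.prod_union (Finset.disjoint_of_subset_left (Finset.Subset.refl _)
        (hT m (Finset.mem_insert_self _ _)).symm)]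
    ring

/-- The probability that none of many groups of events occurs. -/
theorem none_le {J : Type*} (hD : ∀ a, MeasurableSet (D a)) (hI : ProdF μ D)
    (B : J → Finset ℕ) (S : Finset J) (hS : ∀ i ∈ S, ∀ j ∈ S, i ≠ j → Disjoint (B i) (B j))
    {x : ℝ} (hx : ∀ j ∈ S, x ≤ ∏ b ∈ B j, μ.real (D b)) :
    μ.real {ω | ∀ j ∈ S, ∃ b ∈ B j, ω ∉ D b} ≤ Real.exp (-(S.card * x)) := by
  have h1 := prod_formula hD hI B S hS ∅ (fun j _ => Finset.disjoint_empty_right _)
  simp only [Finset.notMem_empty, false_imp_iff, implies_true, and_true, Finset.prod_empty,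
    mul_one] at h1
  rw [h1]
  have hle : ∀ j ∈ S, (1 - ∏ b ∈ B j, μ.real (D b)) ≤ Real.exp (-x) := by
    intro j hj
    have := Real.add_one_le_exp (-x)
    have := hx j hj
    linarith
  have hnn : ∀ j ∈ S, 0 ≤ (1 - ∏ b ∈ B j, μ.real (D b)) := by
    intro j _
    have : ∏ b ∈ B j, μ.real (D b) ≤ 1 :=
      Finset.prod_le_one (fun _ _ => measureReal_nonneg) (fun _ _ => measureReal_le_one)
    linarith
  calc ∏ j ∈ S, (1 - ∏ b ∈ B j, μ.real (D b)) ≤ ∏ _j ∈ S, Real.exp (-x) :=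
        Finset.prod_le_prod hnn hle
    _ = Real.exp (-(S.card * x)) := by
        rw [Finset.prod_const, ← Real.exp_nat_mul]
        congr 1
        ring

/-- The complements of independent events are independent. -/
theorem prodF_compl (hD : ∀ a, MeasurableSet (D a)) (hI : ProdF μ D) :
    ProdF μ (fun a => (D a)ᶜ) := by
  intro T
  have h1 := prod_formula (J := ℕ) hD hI (fun j => {j}) T (fun i _ j _ hij => by
    simpa using hij) ∅ (fun j _ => Finset.disjoint_empty_right _)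
  simp only [Finset.notMem_empty, false_imp_iff, implies_true, and_true, Finset.prod_empty,
    mul_one, Finset.mem_singleton, exists_eq_left, Finset.prod_singleton] at h1
  have h2 : {ω | ∀ b ∈ T, ω ∈ (D b)ᶜ} = {ω | ∀ j ∈ T, ω ∉ D j} := rfl
  rw [h2, h1]
  apply Finset.prod_congr rfl
  intro b _
  rw [measureReal_compl (hD b)]
  simp

end Pool.Agent.Q83.RB
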