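import Pool.Agent.Q83.RB.B

/-! # Random deletions: the main estimate -/

namespace Pool.Agent.Q83.RB

open MeasureTheory ProbabilityTheory Filter Topology
open scoped Classical

theorem ev_const {θ : ℝ} (hθ : 0 < θ) (a : ℝ) : ∀ᶠ N : ℕ in atTop, a ≤ (N : ℝ) ^ θ :=
  ((tendsto_rpow_atTop hθ).comp tendsto_natCast_atTop_atTop).eventually_ge_atTop a

theorem ev_log {θ : ℝ} (hθ : 0 < θ) (a b c : ℝ) (hb : 0 ≤ b) (hc : 0 < c) :
    ∀ᶠ N : ℕ in atTop, a + b * Real.log (c * N + 1) ≤ (N : ℝ) ^ θ := by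
  have h1 := (isLittleO_log_rpow_atTop hθ)
  have h2 : ∀ᶠ x : ℝ in atTop, ‖Real.log x‖ ≤ (1 / (2 * (b + 1))) * ‖x ^ θ‖ :=
    h1.def (by positivity)
  have h3 : ∀ᶠ N : ℕ in atTop, ‖Real.log (N : ℝ)‖ ≤ (1 / (2 * (b + 1))) * ‖(N : ℝ) ^ θ‖ :=
    tendsto_natCast_atTop_atTop.eventually h2
  filter_upwards [h3, ev_const hθ (2 * (a + b * Real.log (c + 1))), eventually_ge_atTop 1]
    with N h4 h5 h6
  have hN : (1 : ℝ) ≤ N := by exact_mod_cast h6
  have hlogN : 0 ≤ Real.log N := Real.log_nonneg hN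
  rw [Real.norm_of_nonneg hlogN, Real.norm_of_nonneg (by positivity)] at h4
  have h7 : Real.log (c * N + 1) ≤ Real.log (c + 1) + Real.log N := by
    rw [← Real.log_mul (by positivity) (by positivity)]
    apply Real.log_le_log (by positivity)
    nlinarith
  have h8 : b * Real.log N ≤ (1 / 2) * (N : ℝ) ^ θ := by
    calc b * Real.log N ≤ b * ((1 / (2 * (b + 1))) * (N : ℝ) ^ θ) :=
          mul_le_mul_of_nonneg_left h4 hb
      _ = (b / (b + 1)) * ((1 / 2) * (N : ℝ) ^ θ) := by field_simp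
      _ ≤ 1 * ((1 / 2) * (N : ℝ) ^ θ) := by
          apply mul_le_mul_of_nonneg_right _ (by positivity)
          rw [div_le_one (by positivity)]
          linarith
      _ = _ := one_mul _
  have h9 : b * Real.log (c * N + 1) ≤ b * Real.log (c + 1) + b * Real.log N := by
    rw [← mul_add]
    exact mul_le_mul_of_nonneg_left h7 hb
  linarith

variable {Ω : Type*} [MeasurableSpace Ω] {μ : Measure Ω} [IsProbabilityMeasure μ] {D : ℕ → Set Ω}

/-- The main estimate for one block. -/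
theorem block {A : Set ℕ} {h : ℕ} (hh : 1 ≤ h) {q : ℕ → ℝ} (hq0 : ∀ n, 0 < q n) (hqa : Antitone q)
    {q₀ : ℝ} (hq1 : q₀ < 1) (hq : ∀ n, q n ≤ q₀) {κ : ℝ} (hκ0 : 0 ≤ κ) (hκ : κ < 1 / h)
    (hr : ∀ᶠ n : ℕ in atTop,
      ((msets A h n).ncard : ℝ) * Real.log (1 / q n) ≤ κ * Real.log n)
    (hD : ∀ a, MeasurableSet (D a)) (hI : ProdF μ D) (hp : ∀ n, q n ≤ μ.real (D n)) :
    ∃ η : ℝ, 0 < η ∧ ∀ᶠ N : ℕ in atTop,
      μ.real {ω | ∀ n ∈ Finset.Ioc N (2 * N), ∃ b ∈ hit A h n, ω ∉ D b} ≤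
        Real.exp (-((N : ℝ) ^ η)) := by
  have hh0 : (0 : ℝ) < h := by exact_mod_cast hh
  set θ : ℝ := (1 / h - κ) / 10 with hθ
  have hθ0 : 0 < θ := by rw [hθ]; linarith
  have hq00 : 0 < q₀ := lt_of_lt_of_le (hq0 0) (hq 0)
  set lam : ℝ := Real.log (1 / q₀) with hlam
  have hlam0 : 0 < lam := Real.log_pos (by rw [one_lt_div hq00]; exact hq1)
  have hlamq : ∀ n, lam ≤ Real.log (1 / q n) := fun n =>
    Real.log_le_log (by positivity) (one_div_le_one_div_of_le (hq0 n) (hq n))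
  obtain ⟨n₁, hn₁⟩ := eventually_atTop.mp hr
  -- a bound for all n
  obtain ⟨R₁, hR₁⟩ : ∃ R₁ : ℝ, ∀ n : ℕ, ((msets A h n).ncard : ℝ) ≤
      R₁ + κ / lam * Real.log (n + 1) := by
    refine ⟨∑ n ∈ Finset.range n₁, ((msets A h n).ncard : ℝ), fun n => ?_⟩
    have hlog : 0 ≤ Real.log ((n : ℝ) + 1) := Real.log_nonneg (by linarith [Nat.cast_nonneg (α := ℝ) n])
    have hsum : 0 ≤ ∑ n ∈ Finset.range n₁, ((msets A h n).ncard : ℝ) :=
      Finset.sum_nonneg fun _ _ => Nat.cast_nonneg _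
    by_cases hn : n < n₁
    · have h1 : ((msets A h n).ncard : ℝ) ≤ ∑ n ∈ Finset.range n₁, ((msets A h n).ncard : ℝ) :=
        Finset.single_le_sum (f := fun n => ((msets A h n).ncard : ℝ))
          (fun _ _ => Nat.cast_nonneg _) (Finset.mem_range.mpr hn)
      have h2 : 0 ≤ κ / lam * Real.log (n + 1) := by positivity
      linarith
    · push Not at hn
      have h1 := hn₁ n hn
      have h2 : ((msets A h n).ncard : ℝ) * lam ≤ κ * Real.log (n + 1) := by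
        calc ((msets A h n).ncard : ℝ) * lam ≤ ((msets A h n).ncard : ℝ) * Real.log (1 / q n) :=
              mul_le_mul_of_nonneg_left (hlamq n) (Nat.cast_nonneg _)
          _ ≤ κ * Real.log n := h1
          _ ≤ κ * Real.log (n + 1) := by
              apply mul_le_mul_of_nonneg_left _ hκ0
              rcases Nat.eq_zero_or_pos n with h0 | h0
              · rw [h0]; simp
              · exact Real.log_le_log (by exact_mod_cast h0) (by linarith)
      have h3 : ((msets A h n).ncard : ℝ) ≤ κ / lam * Real.log (n + 1) := by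
        rw [div_mul_eq_mul_div, le_div_iff₀ hlam0]
        exact h2
      linarith
  refine ⟨(1 / h - κ) / 2, by linarith, ?_⟩
  have e1 := ev_log hθ0 R₁ (κ / lam) (2 * h) (by positivity) (by positivity)
  have e2 := ev_const hθ0 ((h.factorial : ℝ) * (2 * h + 1))
  have e3 := ev_const (θ := θ / h) (by positivity) (h + 1 : ℝ)
  have e4 := ev_const hθ0 (2 * (2 : ℝ) ^ κ)
  filter_upwards [e1, e2, e3, e4, eventually_ge_atTop (max 1 n₁)] with N h1 h2 h3 h4 h5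
  have hN1 : 1 ≤ N := le_trans (le_max_left _ _) h5
  have hNn : n₁ ≤ N := le_trans (le_max_right _ _) h5
  have hN : (1 : ℝ) ≤ N := by exact_mod_cast hN1
  have hN0 : (0 : ℝ) < N := by linarith
  set R : ℕ := ⌊(N : ℝ) ^ θ⌋₊ with hR
  have hRle : (R : ℝ) ≤ (N : ℝ) ^ θ := Nat.floor_le (by positivity)
  have hrR : ∀ n ≤ h * (2 * N), (msets A h n).ncard ≤ R := by
    intro n hn
    apply Nat.le_floor
    refine le_trans (hR₁ n) (le_trans ?_ h1)
    have h6 : Real.log ((n : ℝ) + 1) ≤ Real.log (2 * h * N + 1) := by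
      apply Real.log_le_log (by positivity)
      have : (n : ℝ) ≤ ((h * (2 * N) : ℕ) : ℝ) := by exact_mod_cast hn
      push_cast at this
      linarith
    have h7 : κ / lam * Real.log ((n : ℝ) + 1) ≤ κ / lam * Real.log (2 * h * N + 1) :=
      mul_le_mul_of_nonneg_left h6 (by positivity)
    linarith
  -- the size of A up to 2N
  set F : ℕ := (upto A (2 * N)).card with hF
  have hF1 : F.choose h ≤ (h * (2 * N) + 1) * R := choose_upto_le A hrR
  have hF2 : ((F + 1 - h : ℕ) : ℝ) ^ h ≤ (N : ℝ) ^ (1 + 2 * θ) := by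
    have h6 : ((F + 1 - h : ℕ) : ℝ) ^ h ≤ (h.factorial : ℝ) * (F.choose h : ℝ) := by
      have := Nat.pow_le_choose (α := ℝ) h F
      rw [div_le_iff₀ (by positivity)] at this
      calc ((F + 1 - h : ℕ) : ℝ) ^ h ≤ _ := this
        _ = _ := by ring
    have h7 : (F.choose h : ℝ) ≤ (h * (2 * N) + 1) * R := by exact_mod_cast hF1
    calc ((F + 1 - h : ℕ) : ℝ) ^ h ≤ (h.factorial : ℝ) * (F.choose h : ℝ) := h6
      _ ≤ (h.factorial : ℝ) * ((h * (2 * N) + 1) * R) := mul_le_mul_of_nonneg_left h7 (by positivity)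
      _ ≤ (h.factorial : ℝ) * (((2 * h + 1) * N) * (N : ℝ) ^ θ) := by
          apply mul_le_mul_of_nonneg_left _ (by positivity)
          apply mul_le_mul _ hRle (by positivity) (by positivity)
          nlinarith
      _ = ((h.factorial : ℝ) * (2 * h + 1)) * (N * (N : ℝ) ^ θ) := by ring
      _ ≤ (N : ℝ) ^ θ * (N * (N : ℝ) ^ θ) := mul_le_mul_of_nonneg_right h2 (by positivity)
      _ = (N : ℝ) ^ (1 + 2 * θ) := by
          rw [show (1 + 2 * θ) = θ + (1 + θ) by ring, Real.rpow_add hN0, Real.rpow_add hN0,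
            Real.rpow_one]
  have hF3 : (F : ℝ) ≤ (N : ℝ) ^ ((1 + 3 * θ) / h) := by
    have h6 : ((F + 1 - h : ℕ) : ℝ) ≤ (N : ℝ) ^ ((1 + 2 * θ) / h) := by
      have h7 : (N : ℝ) ^ (1 + 2 * θ) = ((N : ℝ) ^ ((1 + 2 * θ) / h)) ^ h := by
        rw [← Real.rpow_natCast ((N : ℝ) ^ ((1 + 2 * θ) / h)) h, ← Real.rpow_mul hN0.le]
        congr 1
        field_simp
      rw [h7] at hF2
      exact le_of_pow_le_pow_left₀ (by omega) (by positivity) hF2
    have h7 : (F : ℝ) ≤ ((F + 1 - h : ℕ) : ℝ) + h := by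
      have : F ≤ (F + 1 - h) + h := by omega
      exact_mod_cast this
    have h8 : (1 : ℝ) ≤ (N : ℝ) ^ ((1 + 2 * θ) / h) := Real.one_le_rpow hN (by positivity)
    calc (F : ℝ) ≤ (N : ℝ) ^ ((1 + 2 * θ) / h) + h := by linarith
      _ ≤ (h + 1) * (N : ℝ) ^ ((1 + 2 * θ) / h) := by nlinarith
      _ ≤ (N : ℝ) ^ (θ / h) * (N : ℝ) ^ ((1 + 2 * θ) / h) :=
          mul_le_mul_of_nonneg_right h3 (by positivity)
      _ = (N : ℝ) ^ ((1 + 3 * θ) / h) := by
          rw [← Real.rpow_add hN0]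
          congr 1
          ring
  -- packing
  obtain ⟨S, hSX, hSd, hScard⟩ := exists_packing (Finset.Ioc N (2 * N)) (hit A h) (R := R)
    (d := F ^ (h - 1)) (fun n hn => (card_hit_le A h n).trans (hrR n (by
      rw [Finset.mem_Ioc] at hn; nlinarith)))
    (fun b => card_mem_hit_le A hh (2 * N) b _ (fun n hn => by
      rw [Finset.mem_Ioc] at hn; exact hn.2))
  have hXcard : (Finset.Ioc N (2 * N)).card = N := by rw [Nat.card_Ioc]; omega
  rw [hXcard] at hScard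
  have hS1 : (N : ℝ) ≤ S.card * ((R : ℝ) * (F : ℝ) ^ (h - 1) + 1) := by exact_mod_cast hScard
  have hexp : θ + (1 + 3 * θ) * (1 - 1 / h) ≤ 1 - 1 / h + 4 * θ := by
    have : 0 < 1 / (h : ℝ) := by positivity
    nlinarith
  have hS2 : (R : ℝ) * (F : ℝ) ^ (h - 1) + 1 ≤ 2 * (N : ℝ) ^ (1 - 1 / h + 4 * θ) := by
    have h6 : (F : ℝ) ^ (h - 1) ≤ (N : ℝ) ^ ((1 + 3 * θ) * (1 - 1 / h)) := by
      calc (F : ℝ) ^ (h - 1) ≤ ((N : ℝ) ^ ((1 + 3 * θ) / h)) ^ (h - 1) :=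
            pow_le_pow_left₀ (by positivity) hF3 _
        _ = (N : ℝ) ^ ((1 + 3 * θ) * (1 - 1 / h)) := by
            rw [← Real.rpow_natCast ((N : ℝ) ^ ((1 + 3 * θ) / h)) (h - 1), ← Real.rpow_mul hN0.le]
            congr 1
            rw [Nat.cast_sub hh]
            push_cast
            field_simp
    have h7 : (R : ℝ) * (F : ℝ) ^ (h - 1) ≤ (N : ℝ) ^ (1 - 1 / h + 4 * θ) := by
      calc (R : ℝ) * (F : ℝ) ^ (h - 1) ≤ (N : ℝ) ^ θ * (N : ℝ) ^ ((1 + 3 * θ) * (1 - 1 / h)) :=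
            mul_le_mul hRle h6 (by positivity) (by positivity)
        _ = (N : ℝ) ^ (θ + (1 + 3 * θ) * (1 - 1 / h)) := by rw [Real.rpow_add hN0]
        _ ≤ (N : ℝ) ^ (1 - 1 / h + 4 * θ) := Real.rpow_le_rpow_of_exponent_le hN hexp
    have h8 : (1 : ℝ) ≤ (N : ℝ) ^ (1 - 1 / h + 4 * θ) := by
      apply Real.one_le_rpow hN
      have : 1 / (h : ℝ) ≤ 1 := by
        rw [div_le_one hh0]; exact_mod_cast hh
      linarith
    linarith
  have hS3 : (N : ℝ) ^ (1 / h - 4 * θ) ≤ 2 * S.card := by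
    have h6 : (N : ℝ) ≤ S.card * (2 * (N : ℝ) ^ (1 - 1 / h + 4 * θ)) :=
      hS1.trans (mul_le_mul_of_nonneg_left hS2 (Nat.cast_nonneg _))
    have h7 : (N : ℝ) ^ (1 / h - 4 * θ) * (N : ℝ) ^ (1 - 1 / h + 4 * θ) = N := by
      rw [← Real.rpow_add hN0]
      rw [show (1 / (h : ℝ) - 4 * θ + (1 - 1 / h + 4 * θ)) = 1 by ring, Real.rpow_one]
    have h8 : (0 : ℝ) < (N : ℝ) ^ (1 - 1 / h + 4 * θ) := by positivity
    have h9 : (N : ℝ) ^ (1 / h - 4 * θ) * (N : ℝ) ^ (1 - 1 / h + 4 * θ) ≤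
        (2 * S.card) * (N : ℝ) ^ (1 - 1 / h + 4 * θ) := by
      rw [h7]; linarith
    exact le_of_mul_le_mul_right h9 h8
  -- the probability of one event
  have hprob : ∀ n ∈ S, (2 * (N : ℝ)) ^ (-κ) ≤ ∏ b ∈ hit A h n, μ.real (D b) := by
    intro n hn
    have hn' := Finset.mem_Ioc.mp (hSX hn)
    have hn0 : (0 : ℝ) < n := by exact_mod_cast (by omega : 0 < n)
    have hq1' : q n ≤ 1 := (hq n).trans hq1.le
    calc (2 * (N : ℝ)) ^ (-κ) ≤ (n : ℝ) ^ (-κ) := by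
          apply Real.rpow_le_rpow_of_nonpos hn0 _ (by linarith)
          exact_mod_cast hn'.2
      _ = Real.exp (-(κ * Real.log n)) := by
          rw [Real.rpow_def_of_pos hn0]
          congr 1
          ring
      _ ≤ Real.exp (-(((msets A h n).ncard : ℝ) * Real.log (1 / q n))) := by
          apply Real.exp_le_exp.mpr
          have := hn₁ n (by omega)
          linarith
      _ = q n ^ (msets A h n).ncard := by
          rw [one_div, Real.log_inv, mul_neg, neg_neg, Real.exp_nat_mul, Real.exp_log (hq0 n)]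
      _ ≤ q n ^ (hit A h n).card := pow_le_pow_of_le_one (hq0 n).le hq1' (card_hit_le A h n)
      _ = ∏ _b ∈ hit A h n, q n := by rw [Finset.prod_const]
      _ ≤ ∏ b ∈ hit A h n, μ.real (D b) := by
          apply Finset.prod_le_prod (fun _ _ => (hq0 n).le)
          intro b hb
          exact (hqa (mem_hit hh hb).2.1).trans (hp b)
  have hfin := none_le hD hI (hit A h) S hSd hprob
  have hmono : μ.real {ω | ∀ n ∈ Finset.Ioc N (2 * N), ∃ b ∈ hit A h n, ω ∉ D b} ≤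
      μ.real {ω | ∀ n ∈ S, ∃ b ∈ hit A h n, ω ∉ D b} := by
    refine measureReal_mono ?_ (measure_ne_top _ _)
    intro ω hω n hn
    exact hω n (hSX hn)
  refine hmono.trans (hfin.trans ?_)
  apply Real.exp_le_exp.mpr
  rw [neg_le_neg_iff]
  have h6 : (2 * (N : ℝ)) ^ (-κ) = (2 : ℝ) ^ (-κ) * (N : ℝ) ^ (-κ) :=
    Real.mul_rpow (by norm_num) hN0.le
  have h7 : (1 : ℝ) ≤ (N : ℝ) ^ θ * ((1 / 2) * (2 : ℝ) ^ (-κ)) := by
    have h8 : 2 * (2 : ℝ) ^ κ * ((1 / 2) * (2 : ℝ) ^ (-κ)) = 1 := by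
      rw [Real.rpow_neg (by norm_num)]
      field_simp
    calc (1 : ℝ) = 2 * (2 : ℝ) ^ κ * ((1 / 2) * (2 : ℝ) ^ (-κ)) := h8.symm
      _ ≤ _ := mul_le_mul_of_nonneg_right h4 (by positivity)
  calc (N : ℝ) ^ ((1 / h - κ) / 2) = (N : ℝ) ^ (1 / h - 4 * θ + -κ + -θ) := by
        congr 1
        rw [hθ]; ring
    _ = (N : ℝ) ^ (1 / h - 4 * θ) * (N : ℝ) ^ (-κ) * (N : ℝ) ^ (-θ) := by
        rw [Real.rpow_add hN0, Real.rpow_add hN0]
    _ ≤ (N : ℝ) ^ (1 / h - 4 * θ) * (N : ℝ) ^ (-κ) * (N : ℝ) ^ (-θ) *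
          ((N : ℝ) ^ θ * ((1 / 2) * (2 : ℝ) ^ (-κ))) :=
        le_mul_of_one_le_right (by positivity) h7
    _ = (N : ℝ) ^ (1 / h - 4 * θ) * ((1 / 2) * ((2 : ℝ) ^ (-κ) * (N : ℝ) ^ (-κ))) *
          ((N : ℝ) ^ (-θ) * (N : ℝ) ^ θ) := by ring
    _ = (N : ℝ) ^ (1 / h - 4 * θ) * ((1 / 2) * ((2 : ℝ) ^ (-κ) * (N : ℝ) ^ (-κ))) := by
        rw [← Real.rpow_add hN0, neg_add_cancel, Real.rpow_zero, mul_one]
    _ ≤ (2 * S.card) * ((1 / 2) * ((2 : ℝ) ^ (-κ) * (N : ℝ) ^ (-κ))) :=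
        mul_le_mul_of_nonneg_right hS3 (by positivity)
    _ = S.card * (2 * (N : ℝ)) ^ (-κ) := by rw [h6]; ring

/-- Almost surely every long block contains a number that is not represented. -/
theorem almost_surely {A : Set ℕ} {h : ℕ} (hh : 1 ≤ h) {q : ℕ → ℝ} (hq0 : ∀ n, 0 < q n)
    (hqa : Antitone q) {q₀ : ℝ} (hq1 : q₀ < 1) (hq : ∀ n, q n ≤ q₀) {κ : ℝ} (hκ : κ < 1 / h)
    (hr : ∀ᶠ n : ℕ in atTop,
      ((msets A h n).ncard : ℝ) * Real.log (1 / q n) ≤ κ * Real.log n)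
    (hD : ∀ a, MeasurableSet (D a)) (hI : ProdF μ D) (hp : ∀ n, q n ≤ μ.real (D n)) :
    ∀ᵐ ω ∂μ, ∀ᶠ N : ℕ in atTop, ∃ n, N < n ∧ n ≤ 2 * N ∧ msets (A \ {a | ω ∈ D a}) h n = ∅ := by
  have hκ' : max κ 0 < 1 / (h : ℝ) := by
    have hh0 : (0 : ℝ) < h := by exact_mod_cast hh
    exact max_lt hκ (by positivity)
  have hr' : ∀ᶠ n : ℕ in atTop,
      ((msets A h n).ncard : ℝ) * Real.log (1 / q n) ≤ max κ 0 * Real.log n := by
    filter_upwards [hr, eventually_ge_atTop 1] with n hn h1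
    refine hn.trans (mul_le_mul_of_nonneg_right (le_max_left _ _) ?_)
    exact Real.log_nonneg (by exact_mod_cast h1)
  obtain ⟨η, hη, hb⟩ := block hh hq0 hqa hq1 hq (le_max_right κ 0) hκ' hr' hD hI hp
  obtain ⟨N₀, hN₀⟩ := eventually_atTop.mp (hb.and ((ev_log hη 0 2 1 (by norm_num)
    (by norm_num)).and (eventually_ge_atTop 1)))
  let s : ℕ → Set Ω := fun N =>
    {ω | ∀ n ∈ Finset.Ioc (N + N₀) (2 * (N + N₀)), ∃ b ∈ hit A h n, ω ∉ D b}
  have hs : ∀ N, μ.real (s N) ≤ 1 / ((N : ℝ) + 1) ^ 2 := by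
    intro N
    obtain ⟨h1, h2, h3⟩ := hN₀ (N + N₀) (by omega)
    refine h1.trans ?_
    have h4 : 2 * Real.log (((N + N₀ : ℕ) : ℝ) + 1) ≤ ((N + N₀ : ℕ) : ℝ) ^ η := by
      rw [zero_add, one_mul] at h2
      exact h2
    have h5 : 2 * Real.log ((N : ℝ) + 1) ≤ ((N + N₀ : ℕ) : ℝ) ^ η := by
      refine le_trans ?_ h4
      apply mul_le_mul_of_nonneg_left _ (by norm_num)
      apply Real.log_le_log (by positivity)
      push_cast
      linarith [Nat.cast_nonneg (α := ℝ) N₀]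
    calc Real.exp (-(((N + N₀ : ℕ) : ℝ) ^ η)) ≤ Real.exp (-(2 * Real.log ((N : ℝ) + 1))) :=
          Real.exp_le_exp.mpr (by linarith)
      _ = 1 / ((N : ℝ) + 1) ^ 2 := by
          rw [Real.exp_neg, one_div]
          congr 1
          rw [show 2 * Real.log ((N : ℝ) + 1) = ((2 : ℕ) : ℝ) * Real.log ((N : ℝ) + 1) by norm_num,
            Real.exp_nat_mul, Real.exp_log (by positivity)]
  have hsum : (∑' N, μ (s N)) ≠ ⊤ := by
    have h1 : Summable (fun N : ℕ => 1 / ((N : ℝ) + 1) ^ 2) := by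
      have := (summable_nat_add_iff 1).mpr (Real.summable_one_div_nat_pow.mpr (by norm_num : 1 < 2))
      push_cast at this
      exact this
    have h2 : ∀ N, μ (s N) ≤ ENNReal.ofReal (1 / ((N : ℝ) + 1) ^ 2) := by
      intro N
      rw [← ofReal_measureReal]
      exact ENNReal.ofReal_le_ofReal (hs N)
    refine ne_top_of_le_ne_top ?_ (ENNReal.tsum_le_tsum h2)
    exact h1.tsum_ofReal_ne_top
  have hae := ae_eventually_notMem hsum
  filter_upwards [hae] with ω hω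
  obtain ⟨N₁, hN₁⟩ := eventually_atTop.mp hω
  filter_upwards [eventually_ge_atTop (N₀ + N₁)] with N hN
  have h1 := hN₁ (N - N₀) (by omega)
  have h2 : N - N₀ + N₀ = N := by omega
  simp only [s, h2, Set.mem_ofPred_eq, not_forall] at h1
  obtain ⟨n, hn, h3⟩ := h1
  push Not at h3
  rw [Finset.mem_Ioc] at hn
  exact ⟨n, hn.1, hn.2, msets_diff_eq_empty hh h3⟩

end Pool.Agent.Q83.RB
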