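import Pool.Agent.Q83.RB.C

/-! # Order two: many representations survive -/

namespace Pool.Agent.Q83.RB

open MeasureTheory ProbabilityTheory Filter Topology
open scoped Classical

variable {Ω : Type*} [MeasurableSpace Ω] {μ : Measure Ω} [IsProbabilityMeasure μ] {D : ℕ → Set Ω}

/-- the smaller elements of the representations of `n` with different summands -/
noncomputable def smaller (A : Set ℕ) (n : ℕ) : Finset ℕ :=
  (Finset.range (n + 1)).filter (fun a => 2 * a < n ∧ a ∈ A ∧ n - a ∈ A)

theorem ncard_two_le (A : Set ℕ) (n : ℕ) : (msets A 2 n).ncard ≤ (smaller A n).card + 1 := by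
  have hsub : msets A 2 n ⊆
      (((insert (n / 2) (smaller A n)).image (fun a => ({a, n - a} : Multiset ℕ)) :
        Finset (Multiset ℕ)) : Set (Multiset ℕ)) := by
    rintro s ⟨h1, h2, h3⟩
    obtain ⟨a, b, rfl⟩ := Multiset.card_eq_two.mp h1
    have ha := h2 a (by simp)
    have hb := h2 b (by simp)
    have hab : a + b = n := by simpa using h3
    rw [Finset.mem_coe, Finset.mem_image]
    rcases lt_trichotomy a b with h | h | h
    · refine ⟨a, ?_, ?_⟩
      · rw [Finset.mem_insert, smaller, Finset.mem_filter, Finset.mem_range]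
        right
        refine ⟨by omega, by omega, ha, ?_⟩
        have : n - a = b := by omega
        rw [this]; exact hb
      · have : n - a = b := by omega
        rw [this]
    · refine ⟨a, ?_, ?_⟩
      · rw [Finset.mem_insert]
        left
        omega
      · have : n - a = b := by omega
        rw [this]
    · refine ⟨b, ?_, ?_⟩
      · rw [Finset.mem_insert, smaller, Finset.mem_filter, Finset.mem_range]
        right
        refine ⟨by omega, by omega, hb, ?_⟩
        have : n - b = a := by omega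
        rw [this]; exact ha
      · have : n - b = a := by omega
        rw [this]
        exact Multiset.pair_comm b a
  have h1 := Set.ncard_le_ncard hsub (Finset.finite_toSet _)
  rw [Set.ncard_coe_finset] at h1
  exact h1.trans (Finset.card_image_le.trans (Finset.card_insert_le _ _))

theorem prob_missing_le (hD : ∀ a, MeasurableSet (D a)) (hI : ProdF μ D) {p : ℝ} (hp0 : 0 < p)
    (hp : ∀ n, p ≤ 1 - μ.real (D n)) (A : Set ℕ) (n : ℕ) :
    μ.real {ω | msets (A \ {a | ω ∈ D a}) 2 n = ∅} ≤ (1 - p ^ 2) ^ (smaller A n).card := by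
  have hK : ∀ a, MeasurableSet ((fun a => (D a)ᶜ) a) := fun a => (hD a).compl
  have hIK := prodF_compl hD hI
  have hdis : ∀ i ∈ smaller A n, ∀ j ∈ smaller A n, i ≠ j →
      Disjoint ({i, n - i} : Finset ℕ) ({j, n - j} : Finset ℕ) := by
    intro i hi j hj hij
    rw [smaller, Finset.mem_filter, Finset.mem_range] at hi hj
    rw [Finset.disjoint_left]
    intro x hx hx'
    rw [Finset.mem_insert, Finset.mem_singleton] at hx hx'
    omega
  have h1 := prod_formula (D := fun a => (D a)ᶜ) hK hIK (fun a => ({a, n - a} : Finset ℕ))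
    (smaller A n) hdis ∅ (fun j _ => Finset.disjoint_empty_right _)
  simp only [Finset.notMem_empty, false_imp_iff, implies_true, and_true, Finset.prod_empty,
    mul_one] at h1
  have hsub : {ω | msets (A \ {a | ω ∈ D a}) 2 n = ∅} ⊆
      {ω | ∀ j ∈ smaller A n, ∃ b ∈ ({j, n - j} : Finset ℕ), ω ∉ (D b)ᶜ} := by
    intro ω hω j hj
    by_contra hcon
    push Not at hcon
    rw [smaller, Finset.mem_filter, Finset.mem_range] at hj
    have h2 := hcon j (by simp)
    have h3 := hcon (n - j) (by simp)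
    have h4 : ({j, n - j} : Multiset ℕ) ∈ msets (A \ {a | ω ∈ D a}) 2 n := by
      refine ⟨by simp, ?_, ?_⟩
      · intro a ha
        rw [Multiset.insert_eq_cons, Multiset.mem_cons, Multiset.mem_singleton] at ha
        rcases ha with rfl | rfl
        · exact ⟨hj.2.2.1, h2⟩
        · exact ⟨hj.2.2.2, h3⟩
      · rw [Multiset.insert_eq_cons, Multiset.sum_cons, Multiset.sum_singleton]
        omega
    rw [Set.mem_ofPred_eq] at hω
    rw [hω] at h4
    exact h4
  refine (measureReal_mono hsub (measure_ne_top _ _)).trans ?_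
  rw [h1]
  have h2 : ∀ j ∈ smaller A n, (1 - ∏ b ∈ ({j, n - j} : Finset ℕ), μ.real ((D b)ᶜ)) ≤ 1 - p ^ 2 := by
    intro j hj
    rw [smaller, Finset.mem_filter, Finset.mem_range] at hj
    have hne : j ≠ n - j := by omega
    rw [Finset.prod_pair hne]
    have h3 : ∀ a, p ≤ μ.real ((D a)ᶜ) := by
      intro a
      rw [measureReal_compl (hD a)]
      simpa using hp a
    have h4 := mul_le_mul (h3 j) (h3 (n - j)) hp0.le (hp0.le.trans (h3 j))
    nlinarith
  have h3 : ∀ j ∈ smaller A n, 0 ≤ (1 - ∏ b ∈ ({j, n - j} : Finset ℕ), μ.real ((D b)ᶜ)) := by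
    intro j _
    have : ∏ b ∈ ({j, n - j} : Finset ℕ), μ.real ((D b)ᶜ) ≤ 1 :=
      Finset.prod_le_one (fun _ _ => measureReal_nonneg) (fun _ _ => measureReal_le_one)
    linarith
  calc ∏ j ∈ smaller A n, (1 - ∏ b ∈ ({j, n - j} : Finset ℕ), μ.real ((D b)ᶜ))
      ≤ ∏ _j ∈ smaller A n, (1 - p ^ 2) := Finset.prod_le_prod h3 h2
    _ = _ := by rw [Finset.prod_const]

/-- A set with `r(n) ≥ κ log n`, `κ > 1 / log (1 / (1 - p²))`, survives. -/
theorem survives {A : Set ℕ} {p κ : ℝ} (hp0 : 0 < p) (hp1 : p < 1)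
    (hκ : 1 < κ * Real.log (1 / (1 - p ^ 2)))
    (hr : ∀ᶠ n : ℕ in atTop, κ * Real.log n ≤ ((msets A 2 n).ncard : ℝ))
    (hD : ∀ a, MeasurableSet (D a)) (hI : ProdF μ D) (hp : ∀ n, p ≤ 1 - μ.real (D n)) :
    ∀ᵐ ω ∂μ, ∀ᶠ n : ℕ in atTop, (msets (A \ {a | ω ∈ D a}) 2 n).Nonempty := by
  set L := Real.log (1 / (1 - p ^ 2)) with hL
  have hx0 : 0 < 1 - p ^ 2 := by nlinarith
  have hx1 : 1 - p ^ 2 < 1 := by nlinarith
  have hL0 : 0 < L := Real.log_pos (by rw [one_lt_div hx0]; exact hx1)
  obtain ⟨n₀, hn₀⟩ := eventually_atTop.mp (hr.and (eventually_ge_atTop 1))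
  have hbound : ∀ n, n₀ ≤ n → μ.real {ω | msets (A \ {a | ω ∈ D a}) 2 n = ∅} ≤
      Real.exp L * (1 / (n : ℝ) ^ (κ * L)) := by
    intro n hn
    obtain ⟨h1, h2⟩ := hn₀ n hn
    have hn0 : (0 : ℝ) < n := by exact_mod_cast h2
    refine (prob_missing_le hD hI hp0 hp A n).trans ?_
    have h3 : (κ * Real.log n) - 1 ≤ ((smaller A n).card : ℝ) := by
      have h4 : (((msets A 2 n).ncard : ℕ) : ℝ) ≤ ((smaller A n).card : ℝ) + 1 := by
        exact_mod_cast ncard_two_le A n
      linarith
    have h4 : (1 - p ^ 2) = Real.exp (-L) := by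
      rw [hL, one_div, Real.log_inv, neg_neg, Real.exp_log hx0]
    calc (1 - p ^ 2) ^ (smaller A n).card = Real.exp (-(((smaller A n).card : ℝ) * L)) := by
          rw [h4, ← Real.exp_nat_mul]
          congr 1
          ring
      _ ≤ Real.exp (L + -(κ * L * Real.log n)) := by
          apply Real.exp_le_exp.mpr
          nlinarith
      _ = Real.exp L * (1 / (n : ℝ) ^ (κ * L)) := by
          rw [Real.exp_add, Real.rpow_def_of_pos hn0, Real.exp_neg, one_div]
          congr 3
          ring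
  let s : ℕ → Set Ω := fun n => {ω | msets (A \ {a | ω ∈ D a}) 2 (n + n₀) = ∅}
  have hsum : (∑' n, μ (s n)) ≠ ⊤ := by
    have h1 : Summable (fun n : ℕ => Real.exp L * (1 / ((n + n₀ : ℕ) : ℝ) ^ (κ * L))) := by
      apply Summable.mul_left
      exact (summable_nat_add_iff n₀).mpr (Real.summable_one_div_nat_rpow.mpr hκ)
    have h2 : ∀ n, μ (s n) ≤
        ENNReal.ofReal (Real.exp L * (1 / ((n + n₀ : ℕ) : ℝ) ^ (κ * L))) := by
      intro n
      rw [← ofReal_measureReal]
      exact ENNReal.ofReal_le_ofReal (hbound (n + n₀) (by omega))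
    refine ne_top_of_le_ne_top ?_ (ENNReal.tsum_le_tsum h2)
    exact h1.tsum_ofReal_ne_top
  filter_upwards [ae_eventually_notMem hsum] with ω hω
  obtain ⟨N₁, hN₁⟩ := eventually_atTop.mp hω
  filter_upwards [eventually_ge_atTop (n₀ + N₁)] with n hn
  have h1 := hN₁ (n - n₀) (by omega)
  have h2 : n - n₀ + n₀ = n := by omega
  simp only [s, h2, Set.mem_ofPred_eq] at h1
  exact Set.nonempty_iff_ne_empty.mpr h1

end Pool.Agent.Q83.RB
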